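import Pool.Agent.Helper3.RC.Chain
import Pool.Agent.Helper57.U2.Clauses

set_option autoImplicit false

/-! Coincidences of a choice function modulo the members of a chain. -/

namespace Pool.Agent.Helper57.CO

open Finset Pool.Agent.Helper57.U2
open Pool.Agent.Helper25.RC (below mem_below below_subset_range repF_below_le repF cong)
open Pool.Agent.Helper3.RC (Chain chain_energy)

/-- the number of pairs of elements of `D` below `x`, congruent modulo `q`, with congruent
values of `f` -/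
noncomputable def coinc (D : Set ℕ) (f : ℕ → ℕ) (x q : ℕ) : ℕ :=
  #{p ∈ upTo D x ×ˢ upTo D x | p.1 ≡ p.2 [MOD q] ∧ f p.1 ≡ f p.2 [MOD q]}

lemma coinc_le {A D : Set ℕ} {f : ℕ → ℕ} (hf : IsChoice A D f) (x q : ℕ) :
    coinc D f x q ≤ cong (below A x) q ^ 2 := by
  classical
  unfold coinc cong
  rw [sq, ← Finset.card_product]
  refine Finset.card_le_card_of_injOn
    (fun p => ((f p.1, f p.2), (p.1 - f p.1, p.2 - f p.2))) ?_ ?_
  · intro p hp
    rw [Finset.mem_coe, mem_filter, mem_product] at hp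
    obtain ⟨⟨h1, h2⟩, h3, h4⟩ := hp
    obtain ⟨a1, a2, a3⟩ := choice_below hf x _ h1
    obtain ⟨b1, b2, b3⟩ := choice_below hf x _ h2
    rw [Finset.mem_coe, mem_product, mem_filter, mem_filter, mem_product, mem_product]
    refine ⟨⟨⟨a2, b2⟩, h4⟩, ⟨a3, b3⟩, ?_⟩
    show p.1 - f p.1 ≡ p.2 - f p.2 [MOD q]
    refine Nat.ModEq.add_left_cancel h4 ?_
    rw [Nat.add_sub_cancel' a1, Nat.add_sub_cancel' b1]
    exact h3
  · intro p hp p' hp' he
    rw [Finset.mem_coe, mem_filter, mem_product] at hp hp'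
    obtain ⟨a1, _, _⟩ := choice_below hf x _ hp.1.1
    obtain ⟨b1, _, _⟩ := choice_below hf x _ hp.1.2
    obtain ⟨c1, _, _⟩ := choice_below hf x _ hp'.1.1
    obtain ⟨d1, _, _⟩ := choice_below hf x _ hp'.1.2
    simp only [Prod.mk.injEq] at he
    ext <;> omega

/-- Coincidences. -/
theorem coincidences {A D : Set ℕ} {f : ℕ → ℕ} (hf : IsChoice A D f) {m : ℕ → ℕ} (hm : Chain m)
    {J x : ℕ} (hJ : m J ≤ x) :
    ∑ j ∈ range (J + 1), (m j : ℝ) * coinc D f x (m j) ≤
      21 * x * ∑ n ∈ range (2 * x), (rep A n : ℝ) ^ 2 := by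
  have h1 := chain_energy (below A x) (below_subset_range A x) hm hJ
  refine le_trans (Finset.sum_le_sum fun j _ => ?_) (h1.trans ?_)
  · refine mul_le_mul_of_nonneg_left ?_ (Nat.cast_nonneg _)
    exact_mod_cast coinc_le hf x (m j)
  · exact mul_le_mul_of_nonneg_left (sum_repF_le A x) (by positivity)

end Pool.Agent.Helper57.CO
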